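import Pool.Agent.N437.SPC.Stm3

/-!
# SPC/CORQ: the choice of `Q`
-/

set_option autoImplicit false
set_option linter.all false

namespace Pool.Agent.N747.SPC

open Pool.Agent.N437.SPC

theorem t_CORQ : S_CORQ := by
  intro C hC
  refine ⟨Real.exp (2 * C) + 2 + 3 * C, ?_, fun K hK => ?_⟩
  · have := Real.exp_pos (2 * C)
    linarith
  have hK0 : 0 < K := by linarith
  set y := Real.log K with hy
  have hy0 : 0 ≤ y := Real.log_nonneg hK
  have hx : Real.log (2 * K) = Real.log 2 + y := by
    rw [Real.log_mul (by norm_num) hK0.ne']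
  set x := Real.log (2 * K) with hxdef
  have hl2a : 0.6931471803 < Real.log 2 := Real.log_two_gt_d9
  have hl2b : Real.log 2 < 0.6931471808 := Real.log_two_lt_d9
  set l := 1 + Real.log (1 + x) with hl
  have hx0 : 0 < x := by rw [hx]; linarith
  have hl1 : 1 ≤ l := by
    have := Real.log_nonneg (show (1 : ℝ) ≤ 1 + x by linarith)
    linarith
  have hl0 : 0 < l := by linarith
  have hlx : l ≤ 1 + x := by
    have := Real.log_le_sub_one_of_pos (show (0 : ℝ) < 1 + x by linarith)
    linarith
  have hKexp : Real.exp y = K := Real.exp_log hK0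
  have hyl0 : 0 ≤ y / l := div_nonneg hy0 hl0.le
  have hyly : y / l ≤ y := div_le_self hy0 hl1
  refine ⟨Real.exp (y / l), Real.one_le_exp hyl0, ?_, ?_, ?_, ?_⟩
  · rw [← hKexp]
    exact Real.exp_le_exp.2 hyly
  · -- the dimension
    have hw : Real.log (2 * Real.exp (y / l)) = Real.log 2 + y / l := by
      rw [Real.log_mul (by norm_num) (Real.exp_pos _).ne', Real.log_exp]
    rw [hw]
    have h1 : Real.log 2 ≤ 2 * (x / l) := by
      rw [← mul_div_assoc, le_div_iff₀ hl0]
      have h2 : Real.log 2 * l ≤ Real.log 2 * (1 + x) :=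
        mul_le_mul_of_nonneg_left hlx (by linarith)
      have h3 : Real.log 2 * x ≤ 0.7 * x := mul_le_mul_of_nonneg_right (by linarith) hx0.le
      have h4 : 0.69 ≤ x := by rw [hx]; linarith
      nlinarith
    have h2 : y / l ≤ x / l := by
      apply div_le_div_of_nonneg_right _ hl0.le
      rw [hx]
      linarith
    have h3 : C * (Real.log 2 + y / l) ≤ C * (3 * (x / l)) :=
      mul_le_mul_of_nonneg_left (by linarith) (by linarith)
    refine h3.trans ?_
    rw [mul_div_assoc]
    have h4 : 0 ≤ x / l := div_nonneg hx0.le hl0.le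
    have h5 := Real.exp_pos (2 * C)
    nlinarith
  · -- the number of translates
    unfold mb
    set Q := Real.exp (y / l) with hQ
    have hQ1 : 1 ≤ Q := Real.one_le_exp hyl0
    have hw : Real.log (2 * Q) = Real.log 2 + y / l := by
      rw [hQ, Real.log_mul (by norm_num) (Real.exp_pos _).ne', Real.log_exp]
    set w := Real.log (2 * Q) with hwdef
    have hw0 : 0 < w := by rw [hw]; linarith
    have hwx : w ≤ x := by rw [hw, hx]; linarith
    have h1 : 1 + Real.log (1 + w) ≤ l := by
      rw [hl]
      have := Real.log_le_log (show (0 : ℝ) < 1 + w by linarith) (show 1 + w ≤ 1 + x by linarith)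
      linarith
    have h2 : w * l ≤ 2 + 2 * y := by
      have e : w * l = Real.log 2 * l + y := by
        rw [hw, add_mul, div_mul_cancel₀ _ hl0.ne']
      rw [e]
      have h3 : Real.log 2 * l ≤ 0.7 * (1 + x) := by
        apply mul_le_mul (by linarith) hlx hl0.le (by norm_num)
      rw [hx] at h3
      linarith
    have h4 : (2 * Q) ^ (C * (1 + Real.log (1 + w))) ≤ Real.exp (2 * C) * K ^ (2 * C) := by
      rw [Real.rpow_def_of_pos (by linarith : (0 : ℝ) < 2 * Q), ← hwdef,
        Real.rpow_def_of_pos hK0, ← hy, ← Real.exp_add]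
      apply Real.exp_le_exp.2
      have h5 : w * (C * (1 + Real.log (1 + w))) ≤ w * (C * l) :=
        mul_le_mul_of_nonneg_left (mul_le_mul_of_nonneg_left h1 (by linarith)) hw0.le
      have h6 : C * (w * l) ≤ C * (2 + 2 * y) := mul_le_mul_of_nonneg_left h2 (by linarith)
      calc w * (C * (1 + Real.log (1 + w))) ≤ w * (C * l) := h5
        _ = C * (w * l) := by ring
        _ ≤ C * (2 + 2 * y) := h6
        _ = 2 * C + y * (2 * C) := by ring
    have h7 : K ^ 2 * (2 * Q) ^ (C * (1 + Real.log (1 + w))) ≤
        Real.exp (2 * C) * K ^ (2 + 2 * C) := by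
      rw [Real.rpow_add hK0, Real.rpow_two]
      calc K ^ 2 * (2 * Q) ^ (C * (1 + Real.log (1 + w))) ≤
          K ^ 2 * (Real.exp (2 * C) * K ^ (2 * C)) := mul_le_mul_of_nonneg_left h4 (by positivity)
        _ = Real.exp (2 * C) * (K ^ 2 * K ^ (2 * C)) := by ring
    refine h7.trans ?_
    have h8 : K ^ (2 + 2 * C) ≤ K ^ (Real.exp (2 * C) + 2 + 3 * C) := by
      apply Real.rpow_le_rpow_of_exponent_le hK
      have := Real.exp_pos (2 * C)
      linarith
    apply mul_le_mul _ h8 (Real.rpow_nonneg hK0.le _) _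
    · linarith
    · have := Real.exp_pos (2 * C)
      linarith
  · -- the number of sets
    have h1 : K / Real.exp (y / l) = K ^ (1 - 1 / l) := by
      rw [Real.rpow_def_of_pos hK0, ← hy]
      have : y * (1 - 1 / l) = y - y / l := by
        field_simp
      rw [this, Real.exp_sub, hKexp]
    rw [mul_div_assoc, h1]
    apply mul_le_mul_of_nonneg_right _ (Real.rpow_nonneg hK0.le _)
    have := Real.exp_pos (2 * C)
    linarith

end Pool.Agent.N747.SPC
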